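import Pool.Agent.TH510.ETF.Frame

/-!
# Cores of real conference matrices, doubling, and prime powers
-/

set_option autoImplicit false

namespace Pool.Agent.TH510.ETF

open Matrix Finset

/-- there is a Hermitian conference matrix of order `N` -/
def HasConf (N : ℕ) : Prop :=
  ∃ (ι : Type) (_ : Fintype ι) (_ : DecidableEq ι) (S : Matrix ι ι ℂ), Fintype.card ι = N ∧ HConf ι S

theorem HasConf.double {N : ℕ} (h : HasConf N) : HasConf (2 * N) := by
  obtain ⟨ι, i1, i2, S, hc, hS⟩ := h
  refine ⟨ι ⊕ ι, inferInstance, inferInstance, _, ?_, ETF.double hS⟩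
  rw [Fintype.card_sum, hc]; ring

theorem HasConf.iter {N : ℕ} (h : HasConf N) (k : ℕ) : HasConf (2 ^ k * N) := by
  induction k with
  | zero => simpa using h
  | succ k ih =>
    have := ih.double
    rwa [← mul_assoc, ← pow_succ'] at this

theorem hasConf_one : HasConf 1 := by
  refine ⟨Unit, inferInstance, inferInstance, 0, by simp, ?_, ?_, ?_, ?_⟩
  · simp
  · intro i; rfl
  · intro i j h; exact absurd (Subsingleton.elim i j) h
  · simp

theorem hasConf_primePow {q : ℕ} (hq : IsPrimePow q) (ho : Odd q) : HasConf (2 * q) := by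
  classical
  obtain ⟨p, n, hp, hn, hpn⟩ := hq
  have hp' : p.Prime := Nat.prime_iff.2 hp
  haveI : Fact p.Prime := ⟨hp'⟩
  haveI : Fintype (GaloisField p n) := Fintype.ofFinite _
  have hcard : Fintype.card (GaloisField p n) = q := by
    rw [← Nat.card_eq_fintype_card, GaloisField.card p n hn.ne', hpn]
  have hchar : ringChar (GaloisField p n) = p := ringChar.eq_iff.2 inferInstance
  have h2 : ringChar (GaloisField p n) ≠ 2 := by
    rw [hchar]
    rintro rfl
    have : Even q := by
      rw [← hpn]; exact (even_two).pow_of_ne_zero hn.ne'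
    exact (Nat.not_even_iff_odd.2 ho) this
  obtain ⟨S, hS⟩ := field_conf (F := GaloisField p n) h2
  exact ⟨_, inferInstance, inferInstance, S, by rw [Fintype.card_sum, hcard]; ring, hS⟩

theorem hasConf_of_real {κ : Type} [Fintype κ] [DecidableEq κ] {W : Matrix κ κ ℤ}
    (hn : 4 ≤ Fintype.card κ) (h0 : ∀ i, W i i = 0) (h1 : ∀ i j, i ≠ j → W i j = 1 ∨ W i j = -1)
    (hT : Wᵀ = W ∨ Wᵀ = -W) (hW : W * Wᵀ = ((Fintype.card κ : ℤ) - 1) • (1 : Matrix κ κ ℤ)) :
    HasConf (2 * (Fintype.card κ - 1)) := by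
  classical
  haveI : Nonempty κ := Fintype.card_pos_iff.1 (by omega)
  let z : κ := Classical.arbitrary κ
  obtain ⟨K, hK⟩ : ∃ K : Matrix {i : κ // i ≠ z} {i : κ // i ≠ z} ℂ,
      ∀ i j, K i j = ((W z i * W i j * W z j : ℤ) : ℂ) := ⟨fun i j => _, fun i j => rfl⟩
  have hcard : Fintype.card {i : κ // i ≠ z} = Fintype.card κ - 1 := by
    simp
  have hsq : ∀ i : {i : κ // i ≠ z}, W z i * W z i = 1 := by
    intro i
    rcases h1 z i (Ne.symm i.2) with h | h <;> rw [h] <;> norm_num
  have hrow : ∀ i j : κ, ∑ l, W i l * W j l = if i = j then (Fintype.card κ : ℤ) - 1 else 0 := by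
    intro i j
    have := congrFun (congrFun hW i) j
    rw [Matrix.mul_apply] at this
    simp only [Matrix.transpose_apply, Matrix.smul_apply, smul_eq_mul, Matrix.one_apply] at this
    rw [this]
    simp
  have hsum : ∀ f : κ → ℤ, ∑ l : {i : κ // i ≠ z}, f l = (∑ l, f l) - f z := by
    intro f
    rw [Fintype.sum_eq_add_sum_subtype_ne f z]
    ring
  have hprod : ∀ i j : {i : κ // i ≠ z}, W i z * W j z = W z i * W z j := by
    intro i j
    rcases hT with h | h
    · have e1 := congrFun (congrFun h z) i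
      have e2 := congrFun (congrFun h z) j
      rw [Matrix.transpose_apply] at e1 e2
      rw [e1, e2]
    · have e1 := congrFun (congrFun h z) i
      have e2 := congrFun (congrFun h z) j
      rw [Matrix.transpose_apply, Matrix.neg_apply] at e1 e2
      rw [e1, e2]; ring
  have hKJ : K * J _ = 0 := by
    ext i l
    rw [Matrix.mul_apply]
    have : ∀ j : {i : κ // i ≠ z}, K i j * J _ j l = ((W z i * (W i j * W z j) : ℤ) : ℂ) := by
      intro j; rw [hK]; simp only [J, mul_one]; push_cast; ring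
    rw [Finset.sum_congr rfl fun j _ => this j, ← Int.cast_sum, ← Finset.mul_sum,
      hsum (fun j => W i j * W z j), hrow, if_neg i.2, h0]
    simp
  have hKK : K * Kᵀ = (Fintype.card {i : κ // i ≠ z} : ℂ) • 1 - J _ := by
    ext i l
    rw [Matrix.mul_apply]
    have : ∀ j : {i : κ // i ≠ z}, K i j * Kᵀ j l =
        ((W z i * W z l * (W i j * W l j) : ℤ) : ℂ) := by
      intro j
      rw [Matrix.transpose_apply, hK, hK, ← Int.cast_mul]
      congr 1
      linear_combination (W z i * W z l * (W i j * W l j)) * hsq j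
    rw [Finset.sum_congr rfl fun j _ => this j, ← Int.cast_sum, ← Finset.mul_sum,
      hsum (fun j => W i j * W l j), hrow, hprod]
    have hc2 : (Fintype.card {i : κ // i ≠ z} : ℂ) = (Fintype.card κ : ℂ) - 1 := by
      rw [hcard, Nat.cast_sub (by omega)]; simp
    rw [hc2]
    simp only [Matrix.sub_apply, Matrix.smul_apply, smul_eq_mul, J, Matrix.one_apply]
    by_cases e : i = l
    · subst e
      rw [if_pos rfl, if_pos rfl]
      have e2 : W z i * W z i * ((Fintype.card κ : ℤ) - 1 - W z i * W z i) =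
          (Fintype.card κ : ℤ) - 1 - 1 := by
        rw [hsq i]; ring
      rw [e2]; push_cast; ring
    · rw [if_neg e, if_neg (fun h => e (Subtype.ext h))]
      have e2 : W z i * W z l * (0 - W z i * W z l) = -1 := by
        linear_combination (-(W z l * W z l)) * hsq i - hsq l
      rw [e2]; push_cast; ring
  have hK1 : ∀ i j, i ≠ j → K i j = 1 ∨ K i j = -1 := by
    intro i j e
    have e' : (i : κ) ≠ j := fun h => e (Subtype.ext h)
    rw [hK]
    rcases h1 z i (Ne.symm i.2) with a | a <;> rcases h1 z j (Ne.symm j.2) with b | b <;>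
      rcases h1 i j e' with c | c <;> rw [a, b, c] <;> norm_num
  have hK0 : ∀ i, K i i = 0 := by
    intro i; rw [hK, h0]; simp
  rcases hT with h | h
  · have hKT : Kᵀ = K := by
      ext i j
      have e := congrFun (congrFun h i) j
      rw [Matrix.transpose_apply] at e
      rw [Matrix.transpose_apply, hK, hK, e]
      push_cast; ring
    rw [hKT] at hKK
    obtain ⟨S, hS⟩ := sym (K := K) (by omega) hKT hK0 hK1 hKJ hKK
    exact ⟨_, inferInstance, inferInstance, S, by rw [Fintype.card_sum, hcard]; ring, hS⟩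
  · have hKT : Kᵀ = -K := by
      ext i j
      have e := congrFun (congrFun h i) j
      rw [Matrix.transpose_apply, Matrix.neg_apply] at e
      rw [Matrix.transpose_apply, Matrix.neg_apply, hK, hK, e]
      push_cast; ring
    have hKK' : K * K = J _ - (Fintype.card {i : κ // i ≠ z} : ℂ) • 1 := by
      rw [hKT, mul_neg] at hKK
      rw [← neg_neg (K * K), hKK]
      abel
    obtain ⟨S, hS⟩ := skew (K := K) (by omega) hKT hK1 hKJ hKK'
    exact ⟨_, inferInstance, inferInstance, S, by rw [Fintype.card_sum, hcard]; ring, hS⟩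

theorem to_frame {M : ℕ} (hM : 1 ≤ M) (h : HasConf (2 * M)) :
    ∃ f : Fin (2 * M) → EuclideanSpace ℂ (Fin M),
      Submodule.span ℂ (Set.range f) = ⊤ ∧ (∀ i, ‖f i‖ = 1) ∧
      (∃ A : ℝ, 0 < A ∧ ∀ x, ∑ i, ‖inner ℂ x (f i)‖ ^ 2 = A * ‖x‖ ^ 2) ∧
      (∃ c : ℝ, ∀ i j, i ≠ j → ‖inner ℂ (f i) (f j)‖ = c) := by
  obtain ⟨ι, i1, i2, S, hc, hS⟩ := h
  obtain ⟨f, hf1, hf2, hf3⟩ := frame hM hc hS
  let e : Fin (2 * M) ≃ ι := (Fintype.equivFinOfCardEq hc).symm
  have hr : Set.range (fun i => f (e i)) = Set.range f := by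
    exact e.surjective.range_comp f
  refine ⟨fun i => f (e i), ?_, fun i => hf1 _, ⟨2, by norm_num, fun x => ?_⟩, ⟨_, fun i j hij =>
    hf3 _ _ (fun h => hij (e.injective h))⟩⟩
  · rw [hr, ← Submodule.orthogonal_eq_bot_iff, Submodule.eq_bot_iff]
    intro x hx
    have h0 : ∀ i, inner ℂ x (f i) = 0 := fun i =>
      (Submodule.mem_orthogonal' _ _).1 hx (f i) (Submodule.subset_span ⟨i, rfl⟩)
    have h1 := hf2 x
    simp only [h0, norm_zero] at h1
    have h2 : ‖x‖ = 0 := by
      have : ‖x‖ ^ 2 = 0 := by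
        have h3 : (0 : ℝ) = 2 * ‖x‖ ^ 2 := by rw [← h1]; simp
        linarith
      exact pow_eq_zero_iff (two_ne_zero) |>.1 this
    exact norm_eq_zero.1 h2
  · rw [← hf2 x]
    exact Equiv.sum_comp e (fun i => ‖inner ℂ x (f i)‖ ^ 2)

end Pool.Agent.TH510.ETF
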