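import Mathlib

/-!
# Hermitian conference matrices from real cores
-/

set_option autoImplicit false

namespace Pool.Agent.TH510.ETF

open Matrix Finset

/-- Hermitian conference matrix -/
def HConf (ι : Type) [Fintype ι] [DecidableEq ι] (S : Matrix ι ι ℂ) : Prop :=
  Sᴴ = S ∧ (∀ i, S i i = 0) ∧ (∀ i j, i ≠ j → ‖S i j‖ = 1) ∧
    S * S = ((Fintype.card ι : ℂ) - 1) • (1 : Matrix ι ι ℂ)

variable {ι : Type} [Fintype ι] [DecidableEq ι]

/-- doubling -/
theorem double {W : Matrix ι ι ℂ} (h : HConf ι W) :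
    HConf (ι ⊕ ι) (fromBlocks W (W + Complex.I • 1) (W - Complex.I • 1) (-W)) := by
  obtain ⟨h1, h2, h3, h4⟩ := h
  refine ⟨?_, ?_, ?_, ?_⟩
  · rw [fromBlocks_conjTranspose]
    congr 1
    · rw [conjTranspose_sub, conjTranspose_smul, conjTranspose_one, h1]
      simp
    · rw [conjTranspose_add, conjTranspose_smul, conjTranspose_one, h1]
      simp [sub_eq_add_neg]
    · rw [conjTranspose_neg, h1]
  · rintro (i | i)
    · simpa using h2 i
    · simpa using h2 i
  · rintro (i | i) (j | j) hij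
    · simpa using h3 i j (fun e => hij (by rw [e]))
    · rw [fromBlocks_apply₁₂]
      by_cases e : i = j
      · subst e
        simp [h2]
      · simpa [e] using h3 i j e
    · rw [fromBlocks_apply₂₁]
      by_cases e : i = j
      · subst e
        simp [h2]
      · simpa [e] using h3 i j e
    · simpa using h3 i j (fun e => hij (by rw [e]))
  · rw [fromBlocks_multiply]
    have e1 : (W + Complex.I • 1) * (W - Complex.I • 1) = W * W + (1 : Matrix ι ι ℂ) := by
      rw [add_mul, mul_sub, mul_sub, smul_mul_smul_comm, one_mul, Complex.I_mul_I, mul_smul_comm,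
        smul_mul_assoc, mul_one, one_mul, neg_smul, one_smul]
      abel
    have e2 : (W - Complex.I • 1) * (W + Complex.I • 1) = W * W + (1 : Matrix ι ι ℂ) := by
      rw [sub_mul, mul_add, mul_add, smul_mul_smul_comm, one_mul, Complex.I_mul_I, mul_smul_comm,
        smul_mul_assoc, mul_one, one_mul, neg_smul, one_smul]
      abel
    have e3 : W * (W + Complex.I • 1) + (W + Complex.I • 1) * (-W) = 0 := by
      rw [mul_neg, mul_add, add_mul, mul_smul_comm, smul_mul_assoc, mul_one, one_mul]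
      abel
    have e4 : (W - Complex.I • 1) * W + (-W) * (W - Complex.I • 1) = 0 := by
      rw [neg_mul, mul_sub, sub_mul, mul_smul_comm, smul_mul_assoc, mul_one, one_mul]
      abel
    have e5 : W * W + (W * W + 1) = ((Fintype.card (ι ⊕ ι) : ℂ) - 1) • (1 : Matrix ι ι ℂ) := by
      rw [h4, Fintype.card_sum]
      push_cast
      module
    have e6 : (W * W + 1) + -W * -W = ((Fintype.card (ι ⊕ ι) : ℂ) - 1) • (1 : Matrix ι ι ℂ) := by
      rw [neg_mul_neg, add_comm, e5]
    rw [e1, e2, e3, e4, e5, e6, ← fromBlocks_one, fromBlocks_smul, smul_zero]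

/-- the all-one matrix -/
def J (ι : Type) : Matrix ι ι ℂ := fun _ _ => 1

theorem J_sq : J ι * J ι = (Fintype.card ι : ℂ) • J ι := by
  ext i j
  simp [J, Matrix.mul_apply]

theorem J_conj : (J ι)ᴴ = J ι := by
  ext i j
  simp [J]

/-- two blocks -/
theorem two {A B : Matrix ι ι ℂ} (hA : Aᴴ = A) (hA0 : ∀ i, A i i = 0)
    (hA1 : ∀ i j, i ≠ j → ‖A i j‖ = 1) (hB1 : ∀ i j, ‖B i j‖ = 1)
    (h1 : A * B = B * A) (h2 : A * A + B * Bᴴ = (2 * (Fintype.card ι : ℂ) - 1) • 1)
    (h3 : Bᴴ * B = B * Bᴴ) :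
    HConf (ι ⊕ ι) (fromBlocks A B Bᴴ (-A)) := by
  have h1' : Bᴴ * A = A * Bᴴ := by
    have := congrArg conjTranspose h1
    rwa [conjTranspose_mul, conjTranspose_mul, hA] at this
  refine ⟨?_, ?_, ?_, ?_⟩
  · rw [fromBlocks_conjTranspose, conjTranspose_conjTranspose, conjTranspose_neg, hA]
  · rintro (i | i)
    · simpa using hA0 i
    · simpa using hA0 i
  · rintro (i | i) (j | j) hij
    · simpa using hA1 i j (fun e => hij (by rw [e]))
    · simpa using hB1 i j
    · simpa [conjTranspose_apply] using hB1 j i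
    · simpa using hA1 i j (fun e => hij (by rw [e]))
  · rw [fromBlocks_multiply]
    have e3 : A * B + B * (-A) = 0 := by rw [mul_neg, h1]; abel
    have e4 : Bᴴ * A + (-A) * Bᴴ = 0 := by rw [neg_mul, h1']; abel
    have e5 : Bᴴ * B + -A * -A = (2 * (Fintype.card ι : ℂ) - 1) • (1 : Matrix ι ι ℂ) := by
      rw [neg_mul_neg, h3, add_comm, h2]
    have e6 : ((Fintype.card (ι ⊕ ι) : ℂ) - 1) = 2 * (Fintype.card ι : ℂ) - 1 := by
      rw [Fintype.card_sum]; push_cast; ring
    rw [h2, e3, e4, e5, e6, ← fromBlocks_one, fromBlocks_smul, smul_zero]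

/-- A symmetric core. -/
theorem sym {K : Matrix ι ι ℂ} (hv : 2 ≤ Fintype.card ι) (hT : Kᵀ = K) (h0 : ∀ i, K i i = 0)
    (h1 : ∀ i j, i ≠ j → K i j = 1 ∨ K i j = -1) (hJ : K * J ι = 0)
    (hK : K * K = (Fintype.card ι : ℂ) • 1 - J ι) :
    ∃ S, HConf (ι ⊕ ι) S := by
  obtain ⟨v, hvdef⟩ : ∃ v : ℝ, v = (Fintype.card ι : ℝ) := ⟨_, rfl⟩
  have hv' : (2 : ℝ) ≤ v := by rw [hvdef]; exact_mod_cast hv
  have hreal : ∀ i j, star (K i j) = K i j := by
    intro i j
    by_cases e : i = j
    · subst e; simp [h0]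
    · rcases h1 i j e with h | h <;> simp [h]
  have hKH : Kᴴ = K := by
    ext i j
    rw [conjTranspose_apply, hreal]
    exact congrFun (congrFun hT i) j
  have hJ' : J ι * K = 0 := by
    have := congrArg conjTranspose hJ
    rwa [conjTranspose_mul, hKH, J_conj, conjTranspose_zero] at this
  set r : ℝ := Real.sqrt (2 * v - 1) with hr
  have hr2 : r ^ 2 = 2 * v - 1 := Real.sq_sqrt (by linarith)
  have hr1 : 1 ≤ r := by
    rw [hr]; exact Real.one_le_sqrt.2 (by linarith)
  set c : ℝ := (r - 1) / (v - 1) with hc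
  have hcq : (v - 1) * c ^ 2 + 2 * c - 2 = 0 := by
    rw [hc]
    have : v - 1 ≠ 0 := by linarith
    field_simp
    nlinarith
  have hc0 : 0 ≤ c := by rw [hc]; exact div_nonneg (by linarith) (by linarith)
  have hc1 : c ^ 2 ≤ 1 := by
    have h2 : c ^ 2 ≤ (v - 1) * c ^ 2 := by nlinarith [sq_nonneg c]
    have h3 : c ≤ 1 := by
      by_contra h
      have h' : 1 < c := not_le.1 h
      nlinarith
    nlinarith
  set s : ℝ := Real.sqrt (1 - c ^ 2) with hs
  have hs2 : s ^ 2 = 1 - c ^ 2 := Real.sq_sqrt (by linarith)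
  have hcC : ((v : ℂ) - 1) * (c : ℂ) ^ 2 + 2 * c - 2 = 0 := by exact_mod_cast hcq
  have hsC : (s : ℂ) ^ 2 = 1 - (c : ℂ) ^ 2 := by exact_mod_cast hs2
  have hvC : (Fintype.card ι : ℂ) = (v : ℂ) := by rw [hvdef]; push_cast; rfl
  set B : Matrix ι ι ℂ := (1 - (c : ℂ)) • 1 + (c : ℂ) • J ι + (Complex.I * s) • K with hB
  have hBH : Bᴴ = (1 - (c : ℂ)) • 1 + (c : ℂ) • J ι - (Complex.I * s) • K := by
    rw [hB, conjTranspose_add, conjTranspose_add, conjTranspose_smul, conjTranspose_smul,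
      conjTranspose_smul, conjTranspose_one, J_conj, hKH]
    simp [sub_eq_add_neg]
  have hJJ : J ι * J ι = (v : ℂ) • J ι := by rw [J_sq, hvC]
  have e1 : B * Bᴴ = (2 * (v : ℂ) - 1) • 1 - K * K := by
    rw [hBH, hB]
    simp only [add_mul, mul_add, mul_sub, smul_mul_smul_comm, one_mul, mul_one, hJ, hJ', hJJ,
      smul_zero, hK, hvC]
    have : (Complex.I * (s : ℂ)) * (Complex.I * s) = (c : ℂ) ^ 2 - 1 := by
      have := Complex.I_mul_I
      linear_combination ((s : ℂ) ^ 2) * this - hsC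
    rw [this]
    ext i j
    simp only [Matrix.add_apply, Matrix.sub_apply, Matrix.smul_apply, smul_eq_mul, J,
      Matrix.zero_apply]
    by_cases e : i = j
    · subst e
      simp only [Matrix.one_apply_eq]
      linear_combination 0 * hcC
    · simp only [Matrix.one_apply_ne e]
      linear_combination hcC
  have hcomm : B * K = K * B := by
    rw [hB]
    simp only [add_mul, mul_add, smul_mul_assoc, mul_smul_comm, one_mul, mul_one, hJ, hJ',
      smul_zero]
  have hcommH : Bᴴ * K = K * Bᴴ := by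
    rw [hBH]
    simp only [add_mul, mul_add, sub_mul, mul_sub, smul_mul_assoc, mul_smul_comm, one_mul, mul_one,
      hJ, hJ', smul_zero]
  have hnorm : Bᴴ * B = B * Bᴴ := by
    rw [hBH, hB]
    simp only [add_mul, mul_add, mul_sub, sub_mul, smul_mul_smul_comm, one_mul, mul_one, hJ, hJ',
      smul_zero]
    ext i j
    simp only [Matrix.add_apply, Matrix.sub_apply, Matrix.smul_apply, smul_eq_mul, Matrix.zero_apply]
    ring
  refine ⟨_, two (A := K) (B := B) hKH h0 ?_ ?_ hcomm.symm ?_ hnorm⟩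
  · intro i j e
    rcases h1 i j e with h | h <;> simp [h]
  · intro i j
    by_cases e : i = j
    · subst e
      have : B i i = 1 := by
        rw [hB]
        simp [J, h0]
      rw [this]; simp
    · have hn : ∀ t : ℝ, t ^ 2 = 1 → ‖(c : ℂ) + Complex.I * s * t‖ = 1 := by
        intro t ht
        have e1 : (c : ℂ) + Complex.I * s * t = (c : ℂ) + ((s * t : ℝ) : ℂ) * Complex.I := by
          push_cast; ring
        rw [e1, Complex.norm_add_mul_I]
        rw [show c ^ 2 + (s * t) ^ 2 = 1 by rw [mul_pow, hs2, ht]; ring, Real.sqrt_one]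
      have e2 : B i j = (c : ℂ) + Complex.I * s * K i j := by
        rw [hB]
        simp [J, Matrix.one_apply_ne e]
      rw [e2]
      rcases h1 i j e with h | h
      · rw [h]; simpa using hn 1 (by norm_num)
      · rw [h]; simpa using hn (-1) (by norm_num)
  · rw [e1, hvC]
    abel

/-- A skew core. -/
theorem skew {K : Matrix ι ι ℂ} (hv : 3 ≤ Fintype.card ι) (hT : Kᵀ = -K)
    (h1 : ∀ i j, i ≠ j → K i j = 1 ∨ K i j = -1) (hJ : K * J ι = 0)
    (hK : K * K = J ι - (Fintype.card ι : ℂ) • 1) :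
    ∃ S, HConf (ι ⊕ ι) S := by
  obtain ⟨v, hvdef⟩ : ∃ v : ℝ, v = (Fintype.card ι : ℝ) := ⟨_, rfl⟩
  have hv' : (3 : ℝ) ≤ v := by rw [hvdef]; exact_mod_cast hv
  have h0 : ∀ i, K i i = 0 := by
    intro i
    have := congrFun (congrFun hT i) i
    rw [Matrix.transpose_apply, Matrix.neg_apply] at this
    linear_combination this / 2
  have hreal : ∀ i j, star (K i j) = K i j := by
    intro i j
    by_cases e : i = j
    · subst e; simp [h0]
    · rcases h1 i j e with h | h <;> simp [h]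
  have hKH : Kᴴ = -K := by
    ext i j
    rw [conjTranspose_apply, hreal]
    exact congrFun (congrFun hT i) j
  have hJ' : J ι * K = 0 := by
    have := congrArg conjTranspose hJ
    rw [conjTranspose_mul, hKH, J_conj, conjTranspose_zero, mul_neg, neg_eq_zero] at this
    exact this
  have hJJ : J ι * J ι = (v : ℂ) • J ι := by rw [J_sq, hvdef]; push_cast; rfl
  have hvC : (Fintype.card ι : ℂ) = (v : ℂ) := by rw [hvdef]; push_cast; rfl
  obtain ⟨a, ha⟩ : ∃ a : ℝ, a = Real.sqrt (2 / (v - 1)) := ⟨_, rfl⟩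
  have hv1 : 0 < v - 1 := by linarith
  have ha2 : a ^ 2 = 2 / (v - 1) := by rw [ha]; exact Real.sq_sqrt (by positivity)
  have ha2' : (v - 1) * a ^ 2 = 2 := by rw [ha2]; field_simp
  have ha1 : a ^ 2 ≤ 1 := by rw [ha2, div_le_one hv1]; linarith
  obtain ⟨b, hb⟩ : ∃ b : ℝ, b = Real.sqrt (1 - a ^ 2) := ⟨_, rfl⟩
  have hb2 : b ^ 2 = 1 - a ^ 2 := by rw [hb]; exact Real.sq_sqrt (by linarith)
  have hab : (a * b) ^ 2 ≤ 1 := by rw [mul_pow, hb2]; nlinarith [sq_nonneg a]
  obtain ⟨t, ht⟩ : ∃ t : ℝ, t = Real.sqrt (1 - (a * b) ^ 2) := ⟨_, rfl⟩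
  have ht2 : t ^ 2 = 1 - (a * b) ^ 2 := by rw [ht]; exact Real.sq_sqrt (by linarith)
  have haC : ((v : ℂ) - 1) * (a : ℂ) ^ 2 = 2 := by exact_mod_cast ha2'
  have hbC : (b : ℂ) ^ 2 = 1 - (a : ℂ) ^ 2 := by exact_mod_cast hb2
  have htC : (t : ℂ) ^ 2 = 1 - ((a : ℂ) * b) ^ 2 := by exact_mod_cast ht2
  obtain ⟨u, hu⟩ : ∃ u : ℂ, u = t + Complex.I * (a * b) := ⟨_, rfl⟩
  obtain ⟨u', hu'⟩ : ∃ u' : ℂ, u' = t - Complex.I * (a * b) := ⟨_, rfl⟩
  have huu : u * u' = 1 := by
    rw [hu, hu']
    have := Complex.I_mul_I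
    linear_combination htC - ((a : ℂ) * b) ^ 2 * this
  have hstar : star u = u' := by
    rw [hu, hu']
    simp [sub_eq_add_neg]
  have hun : ‖u‖ = 1 := by
    have h2 : (‖u‖ : ℂ) ^ 2 = 1 := by
      rw [← Complex.mul_conj', ← huu, ← hstar]; rfl
    have h3 : ‖u‖ ^ 2 = 1 := by exact_mod_cast h2
    nlinarith [norm_nonneg u]
  set A : Matrix ι ι ℂ := (a : ℂ) • (J ι - 1) + (Complex.I * b) • K with hA
  set B : Matrix ι ι ℂ := 1 + u • K with hB
  have hBH : Bᴴ = 1 - u' • K := by
    rw [hB, conjTranspose_add, conjTranspose_smul, conjTranspose_one, hKH, hstar, smul_neg,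
      sub_eq_add_neg]
  have hAH : Aᴴ = A := by
    rw [hA, conjTranspose_add, conjTranspose_smul, conjTranspose_smul, conjTranspose_sub,
      conjTranspose_one, J_conj, hKH]
    simp
  have hcomm : A * B = B * A := by
    rw [hA, hB]
    simp only [add_mul, mul_add, sub_mul, mul_sub, smul_mul_smul_comm, smul_mul_assoc,
      mul_smul_comm, one_mul, mul_one, hJ, hJ', smul_zero, smul_sub, smul_add]
    ext i j
    simp only [Matrix.add_apply, Matrix.sub_apply, Matrix.smul_apply, smul_eq_mul, Matrix.zero_apply]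
    ring
  have hnorm : Bᴴ * B = B * Bᴴ := by
    rw [hBH, hB]
    simp only [add_mul, mul_add, mul_sub, sub_mul, smul_mul_smul_comm, one_mul, mul_one]
    ext i j
    simp only [Matrix.add_apply, Matrix.sub_apply, Matrix.smul_apply, smul_eq_mul]
    ring
  refine ⟨_, two (A := A) (B := B) hAH ?_ ?_ ?_ hcomm ?_ hnorm⟩
  · intro i
    rw [hA]
    simp [J, h0]
  · intro i j e
    have hn : ∀ x : ℝ, x ^ 2 = 1 → ‖(a : ℂ) + Complex.I * b * x‖ = 1 := by
      intro x hx
      have e1 : (a : ℂ) + Complex.I * b * x = (a : ℂ) + ((b * x : ℝ) : ℂ) * Complex.I := by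
        push_cast; ring
      rw [e1, Complex.norm_add_mul_I]
      rw [show a ^ 2 + (b * x) ^ 2 = 1 by rw [mul_pow, hb2, hx]; ring, Real.sqrt_one]
    have e2 : A i j = (a : ℂ) + Complex.I * b * K i j := by
      rw [hA]
      simp [J, Matrix.one_apply_ne e]
    rw [e2]
    rcases h1 i j e with h | h
    · rw [h]; simpa using hn 1 (by norm_num)
    · rw [h]; simpa using hn (-1) (by norm_num)
  · intro i j
    by_cases e : i = j
    · subst e
      have : B i i = 1 := by
        rw [hB]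
        simp [h0]
      rw [this]; simp
    · have e2 : B i j = u * K i j := by
        rw [hB]
        simp [Matrix.one_apply_ne e]
      rw [e2, norm_mul, hun]
      rcases h1 i j e with h | h <;> simp [h]
  · rw [hBH, hB, hA]
    simp only [add_mul, mul_add, mul_sub, sub_mul, smul_mul_smul_comm, smul_mul_assoc,
      mul_smul_comm, one_mul, mul_one, hJ, hJ', hJJ, hK, smul_zero, smul_sub, smul_add, hvC]
    ext i j
    simp only [Matrix.add_apply, Matrix.sub_apply, Matrix.smul_apply, smul_eq_mul,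
      Matrix.zero_apply, J]
    have hI := Complex.I_mul_I
    by_cases e : i = j
    · subst e
      simp only [Matrix.one_apply_eq, h0]
      linear_combination ((v : ℂ) - 1) * huu - ((v : ℂ) - 1) * (b : ℂ) ^ 2 * hI +
        ((v : ℂ) - 1) * hbC
    · simp only [Matrix.one_apply_ne e]
      linear_combination haC - huu + (b : ℂ) ^ 2 * hI - hbC + K i j * hu - K i j * hu'

end Pool.Agent.TH510.ETF
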