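import Pool.Agent.TH510.ETF.Paley

/-!
# From Hermitian conference matrices to equiangular tight frames
-/

set_option autoImplicit false

namespace Pool.Agent.TH510.ETF

open Matrix Finset

variable {ι : Type} [Fintype ι] [DecidableEq ι]

theorem frame {M : ℕ} (hM : 1 ≤ M) (hc : Fintype.card ι = 2 * M) {S : Matrix ι ι ℂ}
    (hS : HConf ι S) :
    ∃ f : ι → EuclideanSpace ℂ (Fin M), (∀ i, ‖f i‖ = 1) ∧
      (∀ x, ∑ i, ‖inner ℂ x (f i)‖ ^ 2 = 2 * ‖x‖ ^ 2) ∧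
      (∀ i j, i ≠ j → ‖inner ℂ (f i) (f j)‖ = (Real.sqrt (2 * M - 1))⁻¹) := by
  obtain ⟨h1, h2, h3, h4⟩ := hS
  have hM' : (1 : ℝ) ≤ M := by exact_mod_cast hM
  obtain ⟨r, hr⟩ : ∃ r : ℝ, r = Real.sqrt (2 * M - 1) := ⟨_, rfl⟩
  have hr2 : r ^ 2 = 2 * M - 1 := by rw [hr]; exact Real.sq_sqrt (by linarith)
  have hr0 : 0 < r := by rw [hr]; exact Real.sqrt_pos.2 (by linarith)
  have hrC : (r : ℂ) ^ 2 = 2 * M - 1 := by exact_mod_cast hr2
  have hr0C : (r : ℂ) ≠ 0 := by exact_mod_cast hr0.ne'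
  obtain ⟨P, hP⟩ : ∃ P : Matrix ι ι ℂ, P = (1 / 2 : ℂ) • (1 + (r : ℂ)⁻¹ • S) := ⟨_, rfl⟩
  have hPP : P * P = P := by
    have e : ((r : ℂ)⁻¹ * (r : ℂ)⁻¹) • (S * S) = 1 := by
      rw [h4, hc, smul_smul]
      have : (r : ℂ)⁻¹ * (r : ℂ)⁻¹ * (((2 * M : ℕ) : ℂ) - 1) = 1 := by
        push_cast
        rw [← hrC]
        field_simp
      rw [this, one_smul]
    have e2 : (1 + (r : ℂ)⁻¹ • S) * (1 + (r : ℂ)⁻¹ • S) = (2 : ℂ) • (1 + (r : ℂ)⁻¹ • S) := by
      have e3 : ((r : ℂ)⁻¹ • S) * ((r : ℂ)⁻¹ • S) = 1 := by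
        rw [smul_mul_smul_comm]; exact e
      rw [add_mul, mul_add, mul_add, one_mul, mul_one, one_mul, e3]
      module
    rw [hP, smul_mul_assoc, mul_smul_comm, e2, smul_smul, smul_smul]
    norm_num
  have hPH : Pᴴ = P := by
    rw [hP, conjTranspose_smul, conjTranspose_add, conjTranspose_smul, conjTranspose_one, h1]
    simp
  have hdiag : ∀ i, P i i = 1 / 2 := by
    intro i; rw [hP]; simp [h2]
  have hoff : ∀ i j, i ≠ j → ‖(2 : ℂ) * P i j‖ = r⁻¹ := by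
    intro i j e
    rw [hP]
    simp only [Matrix.smul_apply, Matrix.add_apply, Matrix.one_apply_ne e, smul_eq_mul, zero_add,
      norm_mul, norm_inv, h3 i j e]
    simp [abs_of_pos hr0]
  obtain ⟨L, hL⟩ : ∃ L : EuclideanSpace ℂ ι →ₗ[ℂ] EuclideanSpace ℂ ι, L = Matrix.toEuclideanLin P :=
    ⟨_, rfl⟩
  have hLa : ∀ (x : EuclideanSpace ℂ ι), (L x).ofLp = P *ᵥ x.ofLp := by
    intro x; rw [hL]; exact Matrix.ofLp_toEuclideanLin_apply P x
  have hLL : ∀ x, L (L x) = L x := by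
    intro x
    apply (WithLp.ofLp_injective 2)
    rw [hLa, hLa, Matrix.mulVec_mulVec, hPP]
  have hsym : L.IsSymmetric := by
    rw [hL]; exact Matrix.isSymmetric_toEuclideanLin_iff.2 hPH
  have hproj : LinearMap.IsProj (LinearMap.range L) L := by
    refine ⟨fun x => ⟨x, rfl⟩, ?_⟩
    rintro _ ⟨y, rfl⟩
    exact hLL y
  have htr : (Module.finrank ℂ (LinearMap.range L) : ℂ) = M := by
    rw [← hproj.trace, hL, Matrix.toEuclideanLin_eq_toLin, Matrix.trace_toLin_eq]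
    rw [Matrix.trace]
    simp only [Matrix.diag_apply, hdiag, Finset.sum_const, Finset.card_univ, hc, nsmul_eq_mul]
    push_cast
    ring
  have hV : Module.finrank ℂ (LinearMap.range L) = M := by exact_mod_cast htr
  obtain ⟨b⟩ : Nonempty (OrthonormalBasis (Fin M) ℂ (LinearMap.range L)) :=
    ⟨(stdOrthonormalBasis ℂ (LinearMap.range L)).reindex (finCongr hV)⟩
  obtain ⟨g, hgd⟩ : ∃ g : ι → LinearMap.range L, ∀ i, (g i : EuclideanSpace ℂ ι) =
      L (EuclideanSpace.single i 1) := ⟨fun i => ⟨L (EuclideanSpace.single i 1), ⟨_, rfl⟩⟩, fun i => rfl⟩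
  have hrep : ∀ x y : LinearMap.range L, inner ℂ (b.repr x) (b.repr y) =
      inner ℂ (x : EuclideanSpace ℂ ι) (y : EuclideanSpace ℂ ι) := by
    intro x y
    exact b.repr.inner_map_map x y
  have hg : ∀ i j, inner ℂ (b.repr (g i)) (b.repr (g j)) = P i j := by
    intro i j
    rw [hrep, hgd, hgd, hsym, hLL, EuclideanSpace.inner_single_left]
    have := congrFun (hLa (EuclideanSpace.single j 1)) i
    rw [this]
    simp
  have h2C : (starRingEnd ℂ) ((Real.sqrt 2 : ℝ) : ℂ) * ((Real.sqrt 2 : ℝ) : ℂ) = 2 := by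
    rw [Complex.conj_ofReal, ← Complex.ofReal_mul, Real.mul_self_sqrt (by norm_num)]
    norm_num
  have hin : ∀ i j, inner ℂ (((Real.sqrt 2 : ℝ) : ℂ) • b.repr (g i)) (((Real.sqrt 2 : ℝ) : ℂ) • b.repr (g j)) =
      2 * P i j := by
    intro i j
    rw [inner_smul_left, inner_smul_right, hg, ← mul_assoc, h2C]
  refine ⟨fun i => ((Real.sqrt 2 : ℝ) : ℂ) • b.repr (g i), ?_, ?_, ?_⟩
  · intro i
    have h5 := hin i i
    rw [inner_self_eq_norm_sq_to_K, hdiag] at h5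
    have h6 : ‖((Real.sqrt 2 : ℝ) : ℂ) • b.repr (g i)‖ ^ 2 = 1 := by
      have : ((‖((Real.sqrt 2 : ℝ) : ℂ) • b.repr (g i)‖ : ℝ) : ℂ) ^ 2 = 1 := by
        rw [show (2 : ℂ) * (1 / 2) = 1 by norm_num] at h5
        exact h5
      exact_mod_cast this
    nlinarith [norm_nonneg (((Real.sqrt 2 : ℝ) : ℂ) • b.repr (g i))]
  · intro x
    obtain ⟨v, rfl⟩ := b.repr.surjective x
    have h5 : ∀ i, ‖inner ℂ (b.repr v) (((Real.sqrt 2 : ℝ) : ℂ) • b.repr (g i))‖ ^ 2 =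
        2 * ‖(v : EuclideanSpace ℂ ι) i‖ ^ 2 := by
      intro i
      rw [inner_smul_right, hrep, hgd, norm_mul]
      rw [← hsym]
      obtain ⟨y, hy⟩ := v.2
      rw [← hy, hLL, EuclideanSpace.inner_single_right, mul_pow]
      rw [Complex.norm_real, Real.norm_eq_abs, sq_abs, Real.sq_sqrt (by norm_num)]
      simp
    rw [Finset.sum_congr rfl fun i _ => h5 i, ← Finset.mul_sum, b.repr.norm_map,
      Submodule.coe_norm, EuclideanSpace.norm_sq_eq]
  · intro i j e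
    rw [hin, hoff i j e, hr]

end Pool.Agent.TH510.ETF
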