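import Pool.Agent.TH510.ETF.Conf

/-!
# Paley cores over finite fields
-/

set_option autoImplicit false

namespace Pool.Agent.TH510.ETF

open Matrix Finset

variable {F : Type} [Field F] [Fintype F] [DecidableEq F]

/-- the Paley core -/
def paley (F : Type) [Field F] [Fintype F] [DecidableEq F] : Matrix F F ℂ :=
  fun x y => ((quadraticChar F (x - y) : ℤ) : ℂ)

theorem corr (hF : ringChar F ≠ 2) {s : F} (hs : s ≠ 0) :
    ∑ x : F, quadraticChar F x * quadraticChar F (x + s) = -1 := by
  have h1 : ∀ x : F, x ≠ 0 → quadraticChar F x * quadraticChar F (x + s) =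
      quadraticChar F (1 + s * x⁻¹) := by
    intro x hx
    have e : x + s = x * (1 + s * x⁻¹) := by field_simp
    rw [e, map_mul, ← mul_assoc, ← sq, quadraticChar_sq_one hx, one_mul]
  have h2 : ∑ x : F, quadraticChar F x * quadraticChar F (x + s) =
      ∑ x ∈ univ.erase (0 : F), quadraticChar F (1 + s * x⁻¹) := by
    rw [← Finset.add_sum_erase univ _ (mem_univ (0 : F))]
    simp only [MulChar.map_zero, zero_mul, zero_add]
    exact Finset.sum_congr rfl fun x hx => h1 x (Finset.ne_of_mem_erase hx)
  have h3 : ∑ x ∈ univ.erase (0 : F), quadraticChar F (1 + s * x⁻¹) =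
      ∑ y ∈ univ.erase (1 : F), quadraticChar F y := by
    refine Finset.sum_bij' (fun x _ => 1 + s * x⁻¹) (fun y _ => s * (y - 1)⁻¹) ?_ ?_ ?_ ?_ ?_
    · intro x hx
      have hx' := Finset.ne_of_mem_erase hx
      rw [Finset.mem_erase]
      refine ⟨fun h => ?_, mem_univ _⟩
      have : s * x⁻¹ = 0 := by linear_combination h
      rcases mul_eq_zero.1 this with h | h
      · exact hs h
      · exact hx' (inv_eq_zero.1 h)
    · intro y hy
      have hy' := Finset.ne_of_mem_erase hy
      rw [Finset.mem_erase]
      exact ⟨mul_ne_zero hs (inv_ne_zero (sub_ne_zero.2 hy')), mem_univ _⟩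
    · intro x hx
      have hx' := Finset.ne_of_mem_erase hx
      field_simp
      simp [hs]
    · intro y hy
      have hy' := Finset.ne_of_mem_erase hy
      have h5 : y - 1 ≠ 0 := sub_ne_zero.2 hy'
      field_simp
      ring
    · intro x _
      rfl
  rw [h2, h3]
  have h4 := quadraticChar_sum_zero hF
  rw [← Finset.add_sum_erase univ _ (mem_univ (1 : F))] at h4
  simp only [map_one] at h4
  linarith

theorem paley_sq (hF : ringChar F ≠ 2) :
    paley F * paley F = (quadraticChar F (-1) : ℂ) • ((Fintype.card F : ℂ) • 1 - J F) := by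
  ext x z
  rw [Matrix.mul_apply]
  have h1 : ∀ y : F, paley F x y * paley F y z =
      ((quadraticChar F (-1) * (quadraticChar F (y - x) * quadraticChar F (y - z)) : ℤ) : ℂ) := by
    intro y
    have : x - y = -1 * (y - x) := by ring
    simp only [paley]
    rw [this, map_mul]
    push_cast
    ring
  rw [Finset.sum_congr rfl fun y _ => h1 y, ← Int.cast_sum, ← Finset.mul_sum]
  have h2 : ∑ y : F, quadraticChar F (y - x) * quadraticChar F (y - z) =
      if x = z then (Fintype.card F : ℤ) - 1 else -1 := by
    by_cases e : x = z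
    · subst e
      rw [if_pos rfl]
      have h3 : ∀ y : F, quadraticChar F (y - x) * quadraticChar F (y - x) =
          1 - (if y = x then 1 else 0) := by
        intro y
        by_cases e : y = x
        · subst e; simp
        · rw [if_neg e, ← sq, quadraticChar_sq_one (sub_ne_zero.2 e)]; simp
      rw [Finset.sum_congr rfl fun y _ => h3 y, Finset.sum_sub_distrib]
      simp
    · rw [if_neg e, ← corr hF (s := x - z) (sub_ne_zero.2 e)]
      refine Fintype.sum_equiv (Equiv.subRight x) _ _ fun y => ?_
      simp
  rw [h2]
  by_cases e : x = z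
  · subst e
    simp [J]
  · simp [e, J]

theorem paley_J (hF : ringChar F ≠ 2) : paley F * J F = 0 := by
  ext x z
  rw [Matrix.mul_apply]
  have h1 : ∀ y : F, paley F x y * J F y z = ((quadraticChar F (x - y) : ℤ) : ℂ) := by
    intro y; simp [paley, J]
  rw [Finset.sum_congr rfl fun y _ => h1 y, ← Int.cast_sum]
  have h2 : ∑ y : F, quadraticChar F (x - y) = ∑ y : F, quadraticChar F y :=
    Fintype.sum_equiv (Equiv.subLeft x) _ _ fun y => rfl
  rw [h2, quadraticChar_sum_zero hF]
  simp

theorem paley_pm {x y : F} (h : x ≠ y) : paley F x y = 1 ∨ paley F x y = -1 := by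
  rcases quadraticChar_dichotomy (sub_ne_zero.2 h) with e | e
  · left; simp [paley, e]
  · right; simp [paley, e]

theorem field_conf (hF : ringChar F ≠ 2) : ∃ S, HConf (F ⊕ F) S := by
  have hc : 3 ≤ Fintype.card F := by
    have h1 : 1 < Fintype.card F := Fintype.one_lt_card
    have h2 : Fintype.card F % 2 = 1 := FiniteField.odd_card_of_char_ne_two hF
    omega
  rcases quadraticChar_dichotomy (F := F) (a := -1) (by simp) with h | h
  · refine sym (K := paley F) (by omega) ?_ ?_ (fun x y e => paley_pm e) (paley_J hF) ?_
    · ext x y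
      have : y - x = -1 * (x - y) := by ring
      simp only [Matrix.transpose_apply, paley]
      rw [this, map_mul, h, one_mul]
    · intro x; simp [paley]
    · rw [paley_sq hF, h]
      simp
  · refine skew (K := paley F) hc ?_ (fun x y e => paley_pm e) (paley_J hF) ?_
    · ext x y
      have : y - x = -1 * (x - y) := by ring
      simp only [Matrix.transpose_apply, Matrix.neg_apply, paley]
      rw [this, map_mul, h]
      simp
    · rw [paley_sq hF, h]
      simp

end Pool.Agent.TH510.ETF
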